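import Pool.Agent.Helper18.CPC.St

/-! CPC, module MO: the space of all points is omega-monolithic. -/

set_option autoImplicit false

open N4f246296
open TopologicalSpace Topology Filter Set
open Pool.Agent.Helper18.CPC

namespace Pool.Agent.Helper2.CPC

universe u

variable {R : Type u}

/-- the letters of the points of `A` -/
private def CC (A : Set (Pt R)) : Set (R × ℕ) := {c | ∃ a ∈ A, ∃ i, a.τ i = some c}

/-- the relevant infinite words -/
private def NN [Data R] (A : Set (Pt R)) : Set (ℕ → R × ℕ) :=
  {w | Data.j w ∈ CC A} ∪ {w | ∃ r, inf w r ∈ A}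

private theorem countable_CC {A : Set (Pt R)} (hA : A.Countable) : (CC A).Countable := by
  have h : CC A = ⋃ a ∈ A, ⋃ i : ℕ, {c | a.τ i = some c} := by
    ext c
    simp [CC]
  rw [h]
  refine hA.biUnion fun a _ => countable_iUnion fun i => ?_
  refine Set.Subsingleton.countable fun c hc d hd => ?_
  exact Option.some_injective _ (hc.symm.trans hd)

private theorem countable_NN [Data R] {A : Set (Pt R)} (hA : A.Countable)
    (hj : Function.Injective (Data.j : (ℕ → R × ℕ) → R × ℕ)) : (NN A).Countable := by
  refine ((countable_CC hA).preimage hj).union ?_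
  have hinj : Function.Injective (fun (w : ℕ → R × ℕ) (i : ℕ) => some (w i)) := by
    intro w v h
    funext i
    exact Option.some_injective _ (congrFun h i)
  refine ((hA.image Pt.τ).preimage hinj).mono ?_
  rintro w ⟨r, hr⟩
  exact ⟨inf w r, hr, rfl⟩

section top

variable [TopologicalSpace R] [Data R]

/-- the target spaces -/
private def MM (A : Set (Pt R)) : List (CC A) ⊕ (List (CC A) ⊕ NN A) → Type u
  | Sum.inl _ => ULift.{u} Bool
  | Sum.inr (Sum.inl s) => closure ((fun p : Pt R => F (s.map Subtype.val) p) '' A)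
  | Sum.inr (Sum.inr w) => closure ((fun p : Pt R => G w.1 p) '' A)

private instance instMM (A : Set (Pt R)) (i : List (CC A) ⊕ (List (CC A) ⊕ NN A)) :
    TopologicalSpace (MM A i) :=
  match i with
  | Sum.inl _ => inferInstanceAs (TopologicalSpace (ULift.{u} Bool))
  | Sum.inr (Sum.inl s) => inferInstanceAs
      (TopologicalSpace (closure ((fun p : Pt R => F (s.map Subtype.val) p) '' A)))
  | Sum.inr (Sum.inr w) => inferInstanceAs
      (TopologicalSpace (closure ((fun p : Pt R => G w.1 p) '' A)))

private theorem metr_MM [hR : CountablyMonolithicSpace R] {A : Set (Pt R)} (hA : A.Countable)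
    (i : List (CC A) ⊕ (List (CC A) ⊕ NN A)) : MetrizableSpace (MM A i) := by
  rcases i with s | s | w
  · exact (Homeomorph.ulift (X := Bool)).isEmbedding.metrizableSpace
  · exact hR.metrizable_of_closure_of_countable (hA.image _)
  · exact hR.metrizable_of_closure_of_countable (hA.image _)

/-- the maps -/
private noncomputable def ff (A : Set (Pt R)) :
    ∀ i : List (CC A) ⊕ (List (CC A) ⊕ NN A), closure A → MM A i
  | Sum.inl s => fun p => (ULift.up (dch (s.map Subtype.val) p.1) : ULift.{u} Bool)
  | Sum.inr (Sum.inl s) => fun p =>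
      (⟨F (s.map Subtype.val) p.1, image_closure_subset_closure_image
        (continuous_F (s.map Subtype.val)) ⟨p.1, p.2, rfl⟩⟩ :
        closure ((fun p : Pt R => F (s.map Subtype.val) p) '' A))
  | Sum.inr (Sum.inr w) => fun p =>
      (⟨G w.1 p.1, image_closure_subset_closure_image (continuous_G w.1) ⟨p.1, p.2, rfl⟩⟩ :
        closure ((fun p : Pt R => G w.1 p) '' A))

private theorem continuous_ff (A : Set (Pt R)) (i : List (CC A) ⊕ (List (CC A) ⊕ NN A)) :
    Continuous (ff A i) := by
  rcases i with s | s | w
  · exact continuous_uliftUp.comp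
      ((continuous_dch (s.map Subtype.val)).comp continuous_subtype_val)
  · exact ((continuous_F (s.map Subtype.val)).comp continuous_subtype_val).subtype_mk _
  · exact ((continuous_G w.1).comp continuous_subtype_val).subtype_mk _

/-- the letters of the points of the closure -/
private theorem letter_mem {A : Set (Pt R)} {p : Pt R} (hp : p ∈ closure A) {i : ℕ} {c : R × ℕ}
    (h : p.τ i = some c) : c ∈ CC A := by
  have key : ∀ s : List (R × ℕ), p ∈ D s → s[i]? = some c → c ∈ CC A := by
    intro s hs hc
    obtain ⟨a, ha1, ha2⟩ := mem_closure_iff.1 hp (D s) (isClopen_D s).isOpen hs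
    have hi : i < s.length := (List.getElem?_eq_some_iff.1 hc).1
    exact ⟨a, ha2, i, by rw [ha1 i hi, hc]⟩
  rcases cases_pt p with ⟨s, hs⟩ | ⟨w, hw⟩
  · refine key s (by rw [hs]; exact fin_mem_D _ _) ?_
    rw [hs] at h
    exact h
  · rw [hw] at h
    refine key (pre w (i + 1)) ?_ ?_
    · rw [hw]
      exact mem_D_pre.2 fun _ _ => rfl
    · rw [pre_getElem? w (by omega)]
      exact h

private theorem lift_list {A : Set (Pt R)} {p : Pt R} (hp : p ∈ closure A) {s : List (R × ℕ)}
    (hs : p ∈ D s) : ∃ s' : List (CC A), s'.map Subtype.val = s := by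
  have h : ∀ c ∈ s, c ∈ CC A := by
    intro c hc
    obtain ⟨i, hi⟩ := List.mem_iff_getElem?.1 hc
    have hi' : i < s.length := (List.getElem?_eq_some_iff.1 hi).1
    exact letter_mem hp ((hs i hi').trans hi)
  lift s to List (CC A) using h
  exact ⟨s, rfl⟩

private theorem G_eq_z [T2Space R] {A : Set (Pt R)} {w : ℕ → R × ℕ} (hw : w ∉ NN A) {p : Pt R}
    (hp : p ∈ closure A) : G w p = Data.z := by
  have h1 : A ⊆ {a : Pt R | G w a = Data.z} := by
    intro a ha
    have h2 : ∃ n, a.τ n ≠ some (w n) := by
      by_contra h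
      push Not at h
      apply hw
      refine Or.inr ⟨a.r, ?_⟩
      have e : inf w a.r = a := by
        ext1
        · funext i
          exact (h i).symm
        · rfl
      rw [e]
      exact ha
    classical
    have h3 := Nat.find_spec h2
    refine G_at_neg (n := Nat.find h2) (fun i hi => ?_) h3 ?_
    · by_contra h4
      exact Nat.find_min h2 hi h4
    · intro h4
      exact hw (Or.inl ⟨a, ha, _, h4⟩)
  exact closure_minimal h1 (isClosed_eq (continuous_G w) continuous_const) hp

end top

/-- MO. -/
theorem m_MO (h1 : hSE.{u}) : hMO.{u} := by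
  intro R _ _ _ hcomp hR hj
  refine ⟨fun A hA => ?_⟩
  have hc : CompactSpace (closure A) := isCompact_iff_compactSpace.1 isClosed_closure.isCompact
  have hC : Countable (CC A) := (countable_CC hA).to_subtype
  have hN : Countable (NN A) := (countable_NN hA hj).to_subtype
  have hM := metr_MM (R := R) hA
  refine metrizable_of_countable_family (ff A) (continuous_ff A) ?_
  rintro ⟨p, hp⟩ ⟨q, hq⟩ hpq
  have hd : ∀ s : List (CC A), dch (s.map Subtype.val) p = dch (s.map Subtype.val) q := fun s =>
    congrArg ULift.down (hpq (Sum.inl s))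
  have hF : ∀ s : List (CC A), F (s.map Subtype.val) p = F (s.map Subtype.val) q := fun s =>
    congrArg Subtype.val (hpq (Sum.inr (Sum.inl s)))
  have hG : ∀ w : NN A, G w.1 p = G w.1 q := fun w =>
    congrArg Subtype.val (hpq (Sum.inr (Sum.inr w)))
  have hτ : p.τ = q.τ := by
    by_contra hne
    obtain ⟨s, hs⟩ := (h1 R).2.2 p q hne
    have hs' : ∃ s' : List (CC A), s'.map Subtype.val = s := by
      rcases hs with ⟨h2, -⟩ | ⟨h2, -⟩
      · exact lift_list hp h2
      · exact lift_list hq h2
    obtain ⟨s', rfl⟩ := hs'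
    have h3 := hd s'
    unfold dch at h3
    rw [decide_eq_decide] at h3
    rcases hs with ⟨h4, h5⟩ | ⟨h4, h5⟩
    · exact h5 (h3.1 h4)
    · exact h5 (h3.2 h4)
  apply Subtype.ext
  change p = q
  have hr : p.r = q.r := by
    rcases cases_pt p with ⟨s, hs⟩ | ⟨w, hw⟩
    · have hps : p ∈ D s := by rw [hs]; exact fin_mem_D _ _
      obtain ⟨s', hs'⟩ := lift_list hp hps
      have hqs : q = fin s q.r := by
        ext1
        · rw [← hτ, hs]; rfl
        · rfl
      have h3 := hF s'
      rw [hs', hs, hqs, F_fin, F_fin] at h3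
      exact h3
    · have hqw : q = inf w q.r := by
        ext1
        · rw [← hτ, hw]; rfl
        · rfl
      have h3 : G w p = G w q := by
        by_cases hwN : w ∈ NN A
        · exact hG ⟨w, hwN⟩
        · rw [G_eq_z hwN hp, G_eq_z hwN hq]
      rw [hw, hqw, G_inf, G_inf] at h3
      exact h3
  ext1
  · exact hτ
  · exact hr

end Pool.Agent.Helper2.CPC
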